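import Pool.Agent.TH761.EA.Fin

/-!
# Edwards-Anderson ground states on quasi-one-dimensional lattices

`F` is a finite connected graph on the vertex set `V`. The lattice is `ℤ × F`: its vertices are the
pairs `(n, x)`, and its bonds are indexed by `ℤ × (V ⊕ F.edgeSet)`: `(n, inl x)` joins `(n, x)` and
`(n + 1, x)`, and `(n, inr {x, y})` joins `(n, x)` and `(n, y)`.
-/

set_option autoImplicit false

open MeasureTheory

namespace Pool.Agent.Results.MP_37ff18_mp.QuasiOneDimensional

/-- The product of the two spins at the ends of a bond of `ℤ × F`. -/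
def bond {V : Type} (F : SimpleGraph V) (σ : ℤ × V → ℝ) : ℤ × (V ⊕ F.edgeSet) → ℝ
  | (n, Sum.inl x) => σ (n, x) * σ (n + 1, x)
  | (n, Sum.inr e) => Sym2.lift ⟨fun x y => σ (n, x) * σ (n, y), fun _ _ => mul_comm _ _⟩ e.1

/-- `σ` is an infinite-volume ground state for the couplings `J`: it takes the values `1`, `-1`, and
every change at finitely many sites (at least one) increases the energy
`- ∑ J e * (product of the spins of e)`. -/
def IsGroundState {V : Type} (F : SimpleGraph V) (J : ℤ × (V ⊕ F.edgeSet) → ℝ)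
    (σ : ℤ × V → ℝ) : Prop :=
  (∀ x, σ x = 1 ∨ σ x = -1) ∧
    ∀ ρ : ℤ × V → ℝ, (∀ x, ρ x = 1 ∨ ρ x = -1) → {x | ρ x ≠ σ x}.Finite → ρ ≠ σ →
      0 < ∑ᶠ e, J e * (bond F σ e - bond F ρ e)

/-- **Theorem.** Let `F` be a finite connected graph and `μ` a symmetric probability measure on `ℝ`
without atoms. For almost every realisation of i.i.d. couplings of law `μ` on the bonds of `ℤ × F`
there is exactly one pair `σ, -σ` of ground states. -/
theorem result (V : Type) [Finite V] (F : SimpleGraph V) (hF : F.Connected) (μ : Measure ℝ)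
    [IsProbabilityMeasure μ] (hatom : ∀ x : ℝ, μ {x} = 0) (hsym : μ.map (fun x => -x) = μ) :
    ∀ᵐ J ∂(Measure.infinitePi fun _ : ℤ × (V ⊕ F.edgeSet) => μ),
      ∃ σ : ℤ × V → ℝ, {ρ | IsGroundState F J ρ} = {σ, -σ} := by
  classical
  haveI : Fintype V := Fintype.ofFinite V
  haveI : Fintype F.edgeSet := Fintype.ofFinite _
  haveI : Nonempty V := hF.nonempty
  set s : F.edgeSet → V := fun e => (Quot.out e.1).1 with hs
  set t : F.edgeSet → V := fun e => (Quot.out e.1).2 with ht
  have hst : ∀ e : F.edgeSet, e.1 = s(s e, t e) := fun e => (Quot.out_eq e.1).symm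
  have hbond : ∀ (σ : ℤ × V → ℝ) (e : ℤ × (V ⊕ F.edgeSet)),
      bond F σ e = Pool.Agent.TH761.EA.bd s t σ e := by
    rintro σ ⟨n, x | e⟩
    · rfl
    · change Sym2.lift ⟨fun x y => σ (n, x) * σ (n, y), fun _ _ => mul_comm _ _⟩ e.1 =
        σ (n, s e) * σ (n, t e)
      rw [hst e, Sym2.lift_mk]
  have hiff : ∀ (J : ℤ × (V ⊕ F.edgeSet) → ℝ) (σ : ℤ × V → ℝ),
      IsGroundState F J σ ↔ Pool.Agent.TH761.EA.Gr s t J σ := by
    intro J σ
    rw [Pool.Agent.TH761.EA.gr_iff]
    unfold IsGroundState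
    simp only [hbond]
  have hconn : ∀ f : V → ℝ, (∀ e, f (s e) = f (t e)) → ∀ x y, f x = f y := by
    intro f hf x y
    obtain ⟨w⟩ := hF.preconnected x y
    induction w with
    | nil => rfl
    | @cons u v w h _ ih =>
      rw [← ih]
      have h1 := hst ⟨s(u, v), h⟩
      have h2 := hf ⟨s(u, v), h⟩
      simp only at h1
      rcases Sym2.eq_iff.1 h1 with ⟨a, b⟩ | ⟨a, b⟩
      · rw [← a, ← b] at h2; exact h2
      · rw [← a, ← b] at h2; exact h2.symm
  have hmain := Pool.Agent.TH761.EA.main (s := s) (t := t) μ hatom hsym hconn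
  unfold Pool.Agent.TH761.EA.Law at hmain
  filter_upwards [hmain] with J hJ
  obtain ⟨σ, hσ, huniq⟩ := hJ
  refine ⟨σ, ?_⟩
  ext ρ
  simp only [Set.mem_setOf_eq, hiff, Set.mem_insert_iff, Set.mem_singleton_iff]
  constructor
  · exact huniq ρ
  · rintro (h | h)
    · rw [h]; exact hσ
    · rw [h]; exact hσ.neg

end Pool.Agent.Results.MP_37ff18_mp.QuasiOneDimensional
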